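import Pool.Agent.H.MP_41af23_an.E

set_option autoImplicit false

open Set MeasureTheory

namespace Pool.Agent.Results.MP_41af23_an.No

abbrev V := {A : Set ℂ // MeasurableSet A} → ℝ

noncomputable def tri (a b c : ℂ) : V := fun A => volume.real (A.1 ∩ convexHull ℝ {a, b, c})

def K {n : ℕ} (z : Fin n → ℂ) : Set V :=
  {μ | μ ∈ Submodule.span ℝ {m | ∃ i j k, i < j ∧ j < k ∧ m = tri (z i) (z j) (z k)} ∧ 0 ≤ μ}

abbrev Face (C : Set V) : Type := {F : Set V // F.Nonempty ∧ Convex ℝ F ∧ IsExtreme ℝ C F}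

def D (a b c : ℂ) : ℝ := (b.re - a.re) * (c.im - a.im) - (b.im - a.im) * (c.re - a.re)

theorem result : ∃ z w : Fin 6 → ℂ, z.Injective ∧ w.Injective ∧
    (∀ i j k, i < j → j < k → 0 < D (z i) (z j) (z k) ∧ 0 < D (w i) (w j) (w k)) ∧
    (∀ i j k, SignType.sign (D (z i) (z j) (z k)) = SignType.sign (D (w i) (w j) (w k))) ∧
    IsEmpty (Face (K z) ≃o Face (K w)) :=
  Pool.Agent.H.MP_41af23_an.main

end Pool.Agent.Results.MP_41af23_an.No
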